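import Mathlib

open Finset Filter Topology

namespace Pool.Agent.Results.MP_f00a0c_co.House

/-- The 5-cycle `0,1,2,3,4` with the chord `02`. -/
def house : SimpleGraph (Fin 5) :=
  SimpleGraph.fromRel (fun i j => j = i + 1 ∨ (i = 0 ∧ j = 2))

/-- The token graph of a list of token positions. -/
def tokenGraph {V : Type} (G : SimpleGraph V) (s : List V) : SimpleGraph (Fin s.length) :=
  SimpleGraph.fromRel (fun i j => s[i] = s[j] ∨ G.Adj s[i] s[j])

/-- A play `s` lists the positions of the tokens from the newest to the oldest, so `s.drop i` is the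
play at the moment when token `i` was placed; the strategy `A` gives that token the colour
`A (s.drop i)`. -/
def colour {V : Type} (A : List V → ℕ) (s : List V) (i : Fin s.length) : ℕ := A (s.drop i)

/-- The strategy `A` colours properly with at most `k` colours every play of width at most `w`. -/
def Wins {V : Type} (G : SimpleGraph V) (w k : ℕ) (A : List V → ℕ) : Prop :=
  ∀ s : List V, (tokenGraph G s).Colorable w →
    (∀ i j, (tokenGraph G s).Adj i j → colour A s i ≠ colour A s j) ∧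
      (univ.image (colour A s)).card ≤ k

/-- The value `f(w, G)` of the game. -/
noncomputable def value {V : Type} (w : ℕ) (G : SimpleGraph V) : ℕ :=
  sInf {k | ∃ A, Wins G w k A}

def Nm (w q a0 a1 a2 a3 a4 m0 m1 m2 m3 : ℕ) : Prop :=
  (a0 = 0 ∨ a1 = 0) ∧ (a3 = 0 ∨ a4 = 0) ∧
  m1 ≤ q + (a1 + m0 + m1 + (a2 + m1 + m2) - w) ∧
  m2 ≤ q + (a3 + m2 + m3 + (a2 + m1 + m2) - w) ∧
  (a1 = 0 ∨ a2 = 0 ∨ q + (a1 + m0 + m1 + (a2 + m1 + m2) - w) ≤ m1) ∧
  (a3 = 0 ∨ a2 = 0 ∨ (q ≤ m2 ∧ q + (a3 + m2 + m3 + (a2 + m1 + m2) - w) ≤ m2 + (m1 - q)))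

theorem finb (w q a0 a1 a2 a3 a4 m0 m1 m2 m3 : ℕ) (hq : q = (w + 2) / 4) (h : Nm w q a0 a1 a2 a3 a4 m0 m1 m2 m3)
  (c1 : a0 + m0 + (a2 + m1 + m2) + (a4 + m3) ≤ w) (c2 : a0 + m0 + (a3 + m2 + m3) ≤ w)
  (c3 : a1 + m0 + m1 + (a3 + m2 + m3) ≤ w) (c4 : a1 + m0 + m1 + (a4 + m3) ≤ w) :
  a0 + a1 + a2 + a3 + a4 + m0 + m1 + m2 + m3 ≤ w + q := by
  unfold Nm at h; omega

theorem s2 (w q a0 a1 a2 a3 a4 m0 m1 m2 m3 : ℕ) (h : Nm w q a0 a1 a2 a3 a4 m0 m1 m2 m3) :
  Nm w q a0 a1 (a2+1) a3 a4 m0 m1 m2 m3 ∨ (0 < a1 ∧ Nm w q a0 (a1-1) a2 a3 a4 m0 (m1+1) m2 m3) ∨ (0 < a3 ∧ Nm w q a0 a1 a2 (a3-1) a4 m0 m1 (m2+1) m3) := by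
  obtain ⟨h1, h2, h3, h4, h5, h6⟩ := h
  by_cases p : 0 < a1 ∧ m1 + 1 ≤ q + (a1 + m0 + m1 + (a2 + m1 + m2) + 1 - w)
  · right; left; refine ⟨p.1, ?_⟩; refine ⟨?_, ?_, ?_, ?_, ?_, ?_⟩ <;> omega
  by_cases p' : 0 < a3 ∧ m2 + 1 ≤ q + (a3 + m2 + m3 + (a2 + m1 + m2) + 1 - w)
  · right; right; refine ⟨p'.1, ?_⟩; refine ⟨?_, ?_, ?_, ?_, ?_, ?_⟩ <;> omega
  · left; refine ⟨?_, ?_, ?_, ?_, ?_, ?_⟩ <;> omega
theorem s1 (w q a0 a1 a2 a3 a4 m0 m1 m2 m3 : ℕ) (h : Nm w q a0 a1 a2 a3 a4 m0 m1 m2 m3) :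
  Nm w q a0 (a1+1) a2 a3 a4 m0 m1 m2 m3 ∨ (0 < a0 ∧ Nm w q (a0-1) a1 a2 a3 a4 (m0+1) m1 m2 m3) ∨ (0 < a2 ∧ Nm w q a0 a1 (a2-1) a3 a4 m0 (m1+1) m2 m3) := by
  obtain ⟨h1, h2, h3, h4, h5, h6⟩ := h
  by_cases p : 0 < a0
  · right; left; refine ⟨p, ?_⟩; refine ⟨?_, ?_, ?_, ?_, ?_, ?_⟩ <;> omega
  by_cases p' : 0 < a2 ∧ m1 + 1 ≤ q + (a1 + m0 + m1 + (a2 + m1 + m2) + 1 - w)
  · right; right; refine ⟨p'.1, ?_⟩; refine ⟨?_, ?_, ?_, ?_, ?_, ?_⟩ <;> omega
  · left; refine ⟨?_, ?_, ?_, ?_, ?_, ?_⟩ <;> omega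
theorem s3 (w q a0 a1 a2 a3 a4 m0 m1 m2 m3 : ℕ) (h : Nm w q a0 a1 a2 a3 a4 m0 m1 m2 m3) :
  Nm w q a0 a1 a2 (a3+1) a4 m0 m1 m2 m3 ∨ (0 < a4 ∧ Nm w q a0 a1 a2 a3 (a4-1) m0 m1 m2 (m3+1)) ∨ (0 < a2 ∧ Nm w q a0 a1 (a2-1) a3 a4 m0 m1 (m2+1) m3) := by
  obtain ⟨h1, h2, h3, h4, h5, h6⟩ := h
  by_cases p : 0 < a4
  · right; left; refine ⟨p, ?_⟩; refine ⟨?_, ?_, ?_, ?_, ?_, ?_⟩ <;> omega
  by_cases p' : 0 < a2 ∧ m2 + 1 ≤ q + (a3 + m2 + m3 + (a2 + m1 + m2) + 1 - w)
  · right; right; refine ⟨p'.1, ?_⟩; refine ⟨?_, ?_, ?_, ?_, ?_, ?_⟩ <;> omega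
  · left; refine ⟨?_, ?_, ?_, ?_, ?_, ?_⟩ <;> omega
theorem s0 (w q a0 a1 a2 a3 a4 m0 m1 m2 m3 : ℕ) (h : Nm w q a0 a1 a2 a3 a4 m0 m1 m2 m3) :
  Nm w q (a0+1) a1 a2 a3 a4 m0 m1 m2 m3 ∨ (0 < a1 ∧ Nm w q a0 (a1-1) a2 a3 a4 (m0+1) m1 m2 m3) := by
  obtain ⟨h1, h2, h3, h4, h5, h6⟩ := h
  by_cases p : 0 < a1
  · right; refine ⟨p, ?_⟩; refine ⟨?_, ?_, ?_, ?_, ?_, ?_⟩ <;> omega
  · left; refine ⟨?_, ?_, ?_, ?_, ?_, ?_⟩ <;> omega
theorem s4 (w q a0 a1 a2 a3 a4 m0 m1 m2 m3 : ℕ) (h : Nm w q a0 a1 a2 a3 a4 m0 m1 m2 m3) :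
  Nm w q a0 a1 a2 a3 (a4+1) m0 m1 m2 m3 ∨ (0 < a3 ∧ Nm w q a0 a1 a2 (a3-1) a4 m0 m1 m2 (m3+1)) := by
  obtain ⟨h1, h2, h3, h4, h5, h6⟩ := h
  by_cases p : 0 < a3
  · right; refine ⟨p, ?_⟩; refine ⟨?_, ?_, ?_, ?_, ?_, ?_⟩ <;> omega
  · left; refine ⟨?_, ?_, ?_, ?_, ?_, ?_⟩ <;> omega

instance : DecidableRel house.Adj := fun a b => by
  unfold house; simp only [SimpleGraph.fromRel_adj]; infer_instance

def Cf (x y : Fin 5) : Prop := x = y ∨ house.Adj x y

instance : DecidableRel Cf := fun a b => by unfold Cf; infer_instance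

theorem tok_adj (s : List (Fin 5)) (i j : Fin s.length) :
    (tokenGraph house s).Adj i j ↔ i ≠ j ∧ Cf s[i] s[j] := by
  have : ∀ x y, Cf x y → Cf y x := by decide
  unfold tokenGraph
  rw [SimpleGraph.fromRel_adj]
  exact and_congr Iff.rfl ⟨fun h => h.elim id (this _ _), Or.inl⟩

theorem card_filt (s : List (Fin 5)) (p : Fin 5 → Prop) [DecidablePred p] :
    (univ.filter (fun i : Fin s.length => p s[i])).card = s.countP (fun x => decide (p x)) := by
  induction s with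
  | nil => simp
  | cons x s ih =>
    have := Fin.card_filter_univ_succ' (n := s.length) (fun i : Fin (s.length + 1) => p (x :: s)[i])
    erw [this]
    rw [List.countP_cons, ← ih]
    by_cases h : p x <;> simp [h, add_comm]

structure Base (L : List (Fin 5 × ℕ)) (S : Fin 5 → Finset ℕ) (n : ℕ) : Prop where
  pw : L.Pairwise (fun x y => Cf x.1 y.1 → x.2 ≠ y.2)
  lt : ∀ x ∈ L, x.2 < n
  own : ∀ u, ∀ c ∈ S u, c < n ∧ ∀ x ∈ L, x.2 = c → x.1 = u
  dj : ∀ u u' c, c ∈ S u → c ∈ S u' → u = u'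

theorem Base.new {L S n} (h : Base L S n) (v : Fin 5) :
    ∃ S', Base ((v, n) :: L) S' (n + 1) ∧ (S' v).card = (S v).card + 1 ∧
      ∀ u, u ≠ v → (S' u).card = (S u).card := by
  have hn : ∀ u, n ∉ S u := fun u hu => lt_irrefl _ (h.own u n hu).1
  refine ⟨Function.update S v (insert n (S v)), ⟨?_, ?_, ?_, ?_⟩, ?_, ?_⟩
  · exact List.pairwise_cons.2 ⟨fun y hy _ => (h.lt y hy).ne', h.pw⟩
  · intro x hx
    rcases List.mem_cons.1 hx with rfl | hx
    · simp
    · have := h.lt x hx; omega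
  · intro u c hc
    have := h.own u c
    have := h.lt
    have := hn u
    by_cases hu : u = v <;> simp [hu] at hc ⊢ <;> grind
  · intro u u' c hc hc'
    have := h.dj u u' c
    have := hn u
    have := hn u'
    by_cases hu : u = v <;> by_cases hu' : u' = v <;> simp [hu, hu'] at hc hc' ⊢ <;> grind
  · simp [hn v]
  · intro u hu; simp [hu]

theorem Base.pair {L S n} (h : Base L S n) (v u : Fin 5) (hu : 0 < (S u).card) (hc : ¬ Cf v u) :
    ∃ c S', Base ((v, c) :: L) S' n ∧ (S' u).card = (S u).card - 1 ∧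
      ∀ x, x ≠ u → (S' x).card = (S x).card := by
  obtain ⟨c, hcu⟩ := card_pos.1 hu
  refine ⟨c, Function.update S u ((S u).erase c), ⟨?_, ?_, ?_, ?_⟩, ?_, ?_⟩
  · refine List.pairwise_cons.2 ⟨fun y hy hh he => hc ?_, h.pw⟩
    rw [← (h.own u c hcu).2 y hy he.symm]; exact hh
  · intro x hx
    rcases List.mem_cons.1 hx with rfl | hx
    · exact (h.own u c hcu).1
    · exact h.lt x hx
  · intro x c' hc'
    have := h.own x c'
    have := h.dj x u c
    by_cases hx : x = u <;> simp [hx] at hc' ⊢ <;> grind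
  · intro x x' c' h1 h2
    have := h.dj x x' c'
    by_cases hx : x = u <;> by_cases hx' : x' = u <;> simp [hx, hx'] at h1 h2 ⊢ <;> grind
  · simp [hcu]
  · intro x hx; simp [hx]

def ct (L : List (Fin 5 × ℕ)) (v : Fin 5) : ℕ := (L.map Prod.fst).count v

def Inv (w : ℕ) (L : List (Fin 5 × ℕ)) : Prop :=
  ∃ S n a0 a1 a2 a3 a4 m0 m1 m2 m3, Base L S n ∧
    ((S 0).card = a0 ∧ (S 3).card = a1 ∧ (S 1).card = a2 ∧ (S 4).card = a3 ∧ (S 2).card = a4) ∧
    (ct L 0 = a0 + m0 ∧ ct L 3 = a1 + m0 + m1 ∧ ct L 1 = a2 + m1 + m2 ∧ ct L 4 = a3 + m2 + m3 ∧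
      ct L 2 = a4 + m3 ∧ n = a0 + a1 + a2 + a3 + a4 + m0 + m1 + m2 + m3) ∧
    Nm w ((w + 2) / 4) a0 a1 a2 a3 a4 m0 m1 m2 m3

theorem ct_cons (L : List (Fin 5 × ℕ)) (v u : Fin 5) (c : ℕ) :
    ct ((v, c) :: L) u = ct L u + if v = u then 1 else 0 := by
  simp [ct, List.count_cons]

theorem inv_step (w : ℕ) (L : List (Fin 5 × ℕ)) (v : Fin 5) (h : Inv w L) :
    ∃ c, Inv w ((v, c) :: L) := by
  obtain ⟨S, n, a0, a1, a2, a3, a4, m0, m1, m2, m3, hB, ⟨e0, e1, e2, e3, e4⟩,
    ⟨c0, c1, c2, c3, c4, c5⟩, hN⟩ := h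
  have hv : v = 0 ∨ v = 3 ∨ v = 1 ∨ v = 4 ∨ v = 2 := by revert v; decide
  rcases hv with rfl | rfl | rfl | rfl | rfl
  · rcases s0 _ _ _ _ _ _ _ _ _ _ _ hN with h | h
    · obtain ⟨S', hB', k1, k2⟩ := hB.new 0
      exact ⟨n, S', _, _, _, _, _, _, _, _, _, _, hB', ⟨by rw [k1, e0], by rw [k2 3 (by decide), e1], by rw [k2 1 (by decide), e2], by rw [k2 4 (by decide), e3], by rw [k2 2 (by decide), e4]⟩,
        by simp only [ct_cons]; simp; omega, h⟩
    · obtain ⟨c, S', hB', k1, k2⟩ := hB.pair 0 3 (by rw [e1]; exact h.1) (by decide)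
      have := h.1
      exact ⟨c, S', _, _, _, _, _, _, _, _, _, _, hB', ⟨by rw [k2 0 (by decide), e0], by rw [k1, e1], by rw [k2 1 (by decide), e2], by rw [k2 4 (by decide), e3], by rw [k2 2 (by decide), e4]⟩,
        by simp only [ct_cons]; simp; omega, h.2⟩
  · rcases s1 _ _ _ _ _ _ _ _ _ _ _ hN with h | h | h
    · obtain ⟨S', hB', k1, k2⟩ := hB.new 3
      exact ⟨n, S', _, _, _, _, _, _, _, _, _, _, hB', ⟨by rw [k2 0 (by decide), e0], by rw [k1, e1], by rw [k2 1 (by decide), e2], by rw [k2 4 (by decide), e3], by rw [k2 2 (by decide), e4]⟩,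
        by simp only [ct_cons]; simp; omega, h⟩
    · obtain ⟨c, S', hB', k1, k2⟩ := hB.pair 3 0 (by rw [e0]; exact h.1) (by decide)
      have := h.1
      exact ⟨c, S', _, _, _, _, _, _, _, _, _, _, hB', ⟨by rw [k1, e0], by rw [k2 3 (by decide), e1], by rw [k2 1 (by decide), e2], by rw [k2 4 (by decide), e3], by rw [k2 2 (by decide), e4]⟩,
        by simp only [ct_cons]; simp; omega, h.2⟩
    · obtain ⟨c, S', hB', k1, k2⟩ := hB.pair 3 1 (by rw [e2]; exact h.1) (by decide)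
      have := h.1
      exact ⟨c, S', _, _, _, _, _, _, _, _, _, _, hB', ⟨by rw [k2 0 (by decide), e0], by rw [k2 3 (by decide), e1], by rw [k1, e2], by rw [k2 4 (by decide), e3], by rw [k2 2 (by decide), e4]⟩,
        by simp only [ct_cons]; simp; omega, h.2⟩
  · rcases s2 _ _ _ _ _ _ _ _ _ _ _ hN with h | h | h
    · obtain ⟨S', hB', k1, k2⟩ := hB.new 1
      exact ⟨n, S', _, _, _, _, _, _, _, _, _, _, hB', ⟨by rw [k2 0 (by decide), e0], by rw [k2 3 (by decide), e1], by rw [k1, e2], by rw [k2 4 (by decide), e3], by rw [k2 2 (by decide), e4]⟩,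
        by simp only [ct_cons]; simp; omega, h⟩
    · obtain ⟨c, S', hB', k1, k2⟩ := hB.pair 1 3 (by rw [e1]; exact h.1) (by decide)
      have := h.1
      exact ⟨c, S', _, _, _, _, _, _, _, _, _, _, hB', ⟨by rw [k2 0 (by decide), e0], by rw [k1, e1], by rw [k2 1 (by decide), e2], by rw [k2 4 (by decide), e3], by rw [k2 2 (by decide), e4]⟩,
        by simp only [ct_cons]; simp; omega, h.2⟩
    · obtain ⟨c, S', hB', k1, k2⟩ := hB.pair 1 4 (by rw [e3]; exact h.1) (by decide)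
      have := h.1
      exact ⟨c, S', _, _, _, _, _, _, _, _, _, _, hB', ⟨by rw [k2 0 (by decide), e0], by rw [k2 3 (by decide), e1], by rw [k2 1 (by decide), e2], by rw [k1, e3], by rw [k2 2 (by decide), e4]⟩,
        by simp only [ct_cons]; simp; omega, h.2⟩
  · rcases s3 _ _ _ _ _ _ _ _ _ _ _ hN with h | h | h
    · obtain ⟨S', hB', k1, k2⟩ := hB.new 4
      exact ⟨n, S', _, _, _, _, _, _, _, _, _, _, hB', ⟨by rw [k2 0 (by decide), e0], by rw [k2 3 (by decide), e1], by rw [k2 1 (by decide), e2], by rw [k1, e3], by rw [k2 2 (by decide), e4]⟩,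
        by simp only [ct_cons]; simp; omega, h⟩
    · obtain ⟨c, S', hB', k1, k2⟩ := hB.pair 4 2 (by rw [e4]; exact h.1) (by decide)
      have := h.1
      exact ⟨c, S', _, _, _, _, _, _, _, _, _, _, hB', ⟨by rw [k2 0 (by decide), e0], by rw [k2 3 (by decide), e1], by rw [k2 1 (by decide), e2], by rw [k2 4 (by decide), e3], by rw [k1, e4]⟩,
        by simp only [ct_cons]; simp; omega, h.2⟩
    · obtain ⟨c, S', hB', k1, k2⟩ := hB.pair 4 1 (by rw [e2]; exact h.1) (by decide)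
      have := h.1
      exact ⟨c, S', _, _, _, _, _, _, _, _, _, _, hB', ⟨by rw [k2 0 (by decide), e0], by rw [k2 3 (by decide), e1], by rw [k1, e2], by rw [k2 4 (by decide), e3], by rw [k2 2 (by decide), e4]⟩,
        by simp only [ct_cons]; simp; omega, h.2⟩
  · rcases s4 _ _ _ _ _ _ _ _ _ _ _ hN with h | h
    · obtain ⟨S', hB', k1, k2⟩ := hB.new 2
      exact ⟨n, S', _, _, _, _, _, _, _, _, _, _, hB', ⟨by rw [k2 0 (by decide), e0], by rw [k2 3 (by decide), e1], by rw [k2 1 (by decide), e2], by rw [k2 4 (by decide), e3], by rw [k1, e4]⟩,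
        by simp only [ct_cons]; simp; omega, h⟩
    · obtain ⟨c, S', hB', k1, k2⟩ := hB.pair 2 4 (by rw [e3]; exact h.1) (by decide)
      have := h.1
      exact ⟨c, S', _, _, _, _, _, _, _, _, _, _, hB', ⟨by rw [k2 0 (by decide), e0], by rw [k2 3 (by decide), e1], by rw [k2 1 (by decide), e2], by rw [k1, e3], by rw [k2 2 (by decide), e4]⟩,
        by simp only [ct_cons]; simp; omega, h.2⟩

theorem upper (w : ℕ) : ∃ A, Wins house w (w + (w + 2) / 4) A := by
  have hs : ∀ (L : List (Fin 5 × ℕ)) (v : Fin 5), ∃ c, Inv w L → Inv w ((v, c) :: L) := by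
    intro L v
    by_cases h : Inv w L
    · obtain ⟨c, hc⟩ := inv_step w L v h
      exact ⟨c, fun _ => hc⟩
    · exact ⟨0, fun h' => absurd h' h⟩
  choose nx hnx using hs
  let col : List (Fin 5) → List (Fin 5 × ℕ) := fun s =>
    s.foldr (fun v L => (v, nx L v) :: L) []
  let A : List (Fin 5) → ℕ := fun s => match s with
    | [] => 0
    | v :: s => nx (col s) v
  have hI : ∀ s, Inv w (col s) := by
    intro s
    induction s with
    | nil =>
      exact ⟨fun _ => ∅, 0, 0, 0, 0, 0, 0, 0, 0, 0, 0, ⟨by simp [col], by simp [col], by simp,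
        by simp⟩, by simp, by simp [col, ct], by simp [Nm]⟩
    | cons v s ih => exact hnx _ v ih
  have hc : ∀ s, col s = List.ofFn (fun i : Fin s.length => (s[i], colour A s i)) := by
    intro s
    induction s with
    | nil => simp [col]
    | cons v s ih =>
      show (v, nx (col s) v) :: col s = _
      erw [List.ofFn_succ]
      congr 1
  refine ⟨A, fun s hs => ?_⟩
  obtain ⟨S, n, a0, a1, a2, a3, a4, m0, m1, m2, m3, hB, -, ⟨c0, c1, c2, c3, c4, c5⟩, hN⟩ := hI s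
  have hct : ∀ v, ct (col s) v = s.count v := by
    intro v
    unfold ct
    rw [hc, List.map_ofFn]
    congr 1
    exact List.ofFn_getElem
  have hpw := hB.pw
  have hlt := hB.lt
  rw [hc] at hpw hlt
  rw [List.pairwise_ofFn] at hpw
  constructor
  · intro i j hij
    rw [tok_adj] at hij
    have sy : ∀ x y, Cf x y → Cf y x := by decide
    rcases lt_or_gt_of_ne hij.1 with h | h
    · exact hpw h hij.2
    · exact (hpw h (sy _ _ hij.2)).symm
  · have hsub : univ.image (colour A s) ⊆ range n := by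
      intro c hc'
      obtain ⟨i, -, rfl⟩ := mem_image.1 hc'
      exact mem_range.2 (hlt _ (List.mem_ofFn.2 ⟨i, rfl⟩))
    have h1 := card_le_card hsub
    rw [card_range] at h1
    have cl : ∀ K : Finset (Fin 5), (∀ x ∈ K, ∀ y ∈ K, Cf x y) → ∑ v ∈ K, s.count v ≤ w := by
      intro K hK
      have h2 : (tokenGraph house s).IsClique
          (↑(univ.filter (fun i : Fin s.length => s[i] ∈ K)) : Set _) := by
        intro i hi j hj hij
        simp only [coe_filter, mem_univ, true_and, Set.mem_ofPred_eq] at hi hj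
        exact (tok_adj s i j).2 ⟨hij, hK _ hi _ hj⟩
      have h3 := h2.card_le_of_colorable hs
      rw [card_filt s (fun x => x ∈ K)] at h3
      refine le_trans (le_of_eq ?_) h3
      clear h2 h3 hpw hlt hsub h1 hct c0 c1 c2 c3 c4 hB hs
      induction s with
      | nil => simp
      | cons x s ih =>
        simp only [List.count_cons, List.countP_cons, sum_add_distrib, ih]
        simp
    have k1 := cl {0, 1, 2} (by decide)
    have k2 := cl {0, 4} (by decide)
    have k3 := cl {3, 4} (by decide)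
    have k4 := cl {3, 2} (by decide)
    simp at k1 k2 k3 k4
    rw [hct] at c0 c1 c2 c3 c4
    have := finb w _ a0 a1 a2 a3 a4 m0 m1 m2 m3 rfl hN (by omega) (by omega) (by omega) (by omega)
    omega

def CS (A : List (Fin 5) → ℕ) : List (Fin 5) → Fin 5 → Finset ℕ
  | [], _ => ∅
  | x :: s, v => if x = v then insert (A (x :: s)) (CS A s v) else CS A s v

theorem CS_eq (A : List (Fin 5) → ℕ) (s : List (Fin 5)) (v : Fin 5) :
    CS A s v = (univ.filter (fun i : Fin s.length => s[i] = v)).image (colour A s) := by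
  ext c
  simp only [mem_image, mem_filter, mem_univ, true_and]
  induction s with
  | nil => simp [CS]
  | cons x s ih =>
    erw [Fin.exists_fin_succ]
    have e : (∃ i : Fin s.length, (x :: s)[i.succ] = v ∧ colour A (x :: s) i.succ = c) ↔
      ∃ i : Fin s.length, s[i] = v ∧ colour A s i = c := Iff.rfl
    erw [e, ← ih]
    by_cases h : x = v <;> simp [CS, h, colour, eq_comm]

theorem CS_app (A : List (Fin 5) → ℕ) (t s : List (Fin 5)) (v : Fin 5) (h : v ∉ t) :
    CS A (t ++ s) v = CS A s v := by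
  induction t with
  | nil => rfl
  | cons x t ih =>
    simp only [List.mem_cons, not_or] at h
    simp [CS, Ne.symm h.1, ih h.2]

theorem CS_facts {w k : ℕ} {A : List (Fin 5) → ℕ} (h : Wins house w k A) {s : List (Fin 5)}
    (hs : (tokenGraph house s).Colorable w) :
    (∀ v, (CS A s v).card = s.count v) ∧
    (∀ u v, u ≠ v → Cf u v → Disjoint (CS A s u) (CS A s v)) ∧
    ∃ T : Finset ℕ, T.card ≤ k ∧ ∀ v, CS A s v ⊆ T := by
  obtain ⟨h1, h2⟩ := h s hs
  refine ⟨fun v => ?_, fun u v huv hc => ?_, _, h2, fun v => ?_⟩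
  · rw [CS_eq, card_image_of_injOn, card_filt s (fun x => x = v)]
    · rfl
    · intro i hi j hj hij
      simp only [coe_filter, mem_univ, true_and, Set.mem_ofPred_eq] at hi hj
      by_contra hne
      exact h1 i j ((tok_adj s i j).2 ⟨hne, Or.inl (hi.trans hj.symm)⟩) hij
  · rw [CS_eq, CS_eq, disjoint_left]
    intro c hc1 hc2
    simp only [mem_image, mem_filter, mem_univ, true_and] at hc1 hc2
    obtain ⟨i, rfl, rfl⟩ := hc1
    obtain ⟨j, rfl, hj⟩ := hc2
    exact h1 i j ((tok_adj s i j).2 ⟨fun e => huv (by rw [e]), hc⟩) hj.symm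
  · rw [CS_eq]; exact image_subset_image (filter_subset _ _)

theorem valid_of {w : ℕ} (L : List (Fin 5 × ℕ))
    (h : L.Pairwise (fun x y => Cf x.1 y.1 → x.2 ≠ y.2)) (hl : ∀ x ∈ L, x.2 < w) :
    (tokenGraph house (L.map Prod.fst)).Colorable w := by
  have sy : ∀ x y, Cf x y → Cf y x := by decide
  have len : ∀ i : Fin (L.map Prod.fst).length, i.val < L.length := fun i => by simpa using i.2
  refine ⟨SimpleGraph.Coloring.mk (fun i => ⟨(L[i.val]'(len i)).2, hl _ (List.getElem_mem _)⟩) ?_⟩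
  intro i j hij
  rw [tok_adj] at hij
  obtain ⟨h1, h2⟩ := hij
  simp only [Fin.getElem_fin, List.getElem_map] at h2
  rw [List.pairwise_iff_getElem] at h
  simp only [ne_eq, Fin.mk.injEq]
  rcases lt_or_gt_of_ne h1 with h3 | h3
  · exact h _ _ _ _ h3 h2
  · exact (h _ _ _ _ h3 (sy _ _ h2)).symm

def blk (v : Fin 5) (o n : ℕ) : List (Fin 5 × ℕ) := (List.range n).map (fun i => (v, o + i))

theorem blk_fst (v : Fin 5) (o n : ℕ) : (blk v o n).map Prod.fst = List.replicate n v := by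
  simp [blk, Function.comp_def, List.map_const']

theorem blk_mem {v : Fin 5} {o n : ℕ} {x : Fin 5 × ℕ} (h : x ∈ blk v o n) :
    x.1 = v ∧ o ≤ x.2 ∧ x.2 < o + n := by
  simp only [blk, List.mem_map, List.mem_range] at h
  obtain ⟨i, hi, rfl⟩ := h
  simp [hi]

theorem blk_pw (v : Fin 5) (o n : ℕ) :
    (blk v o n).Pairwise (fun x y => Cf x.1 y.1 → x.2 ≠ y.2) := by
  unfold blk
  rw [List.pairwise_map]
  exact List.pairwise_lt_range.imp fun h _ => by simp; omega

theorem lower {w k : ℕ} {A : List (Fin 5) → ℕ} (h : Wins house w k A) : w + (w + 2) / 4 ≤ k := by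
  set K := w / 2 with hK
  have n1 : ¬ Cf 0 3 := by decide
  have n2 : ¬ Cf 4 1 := by decide
  have n3 : ¬ Cf 1 3 := by decide
  have vA := valid_of (w := w) (blk 0 0 K ++ (blk 4 K (w - K) ++ (blk 1 K K ++ blk 3 0 K)))
    (by
      simp only [List.pairwise_append, blk_pw, true_and, List.mem_append]
      refine ⟨⟨fun a ha b hb => ?_, fun a ha b hb => ?_⟩, fun a ha b hb => ?_⟩
      · have := blk_mem ha; have := blk_mem hb; omega
      · rcases hb with hb | hb <;> have := blk_mem ha <;> have := blk_mem hb <;> grind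
      · rcases hb with hb | hb | hb <;> have := blk_mem ha <;> have := blk_mem hb <;> grind)
    (by
      simp only [List.mem_append]
      rintro x (hx | hx | hx | hx) <;> have := blk_mem hx <;> omega)
  have vB := valid_of (w := w) (blk 2 K (w - K) ++ (blk 1 0 K ++ blk 3 0 K))
    (by
      simp only [List.pairwise_append, blk_pw, true_and, List.mem_append]
      refine ⟨fun a ha b hb => ?_, fun a ha b hb => ?_⟩
      · have := blk_mem ha; have := blk_mem hb; grind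
      · rcases hb with hb | hb <;> have := blk_mem ha <;> have := blk_mem hb <;> omega)
    (by
      simp only [List.mem_append]
      rintro x (hx | hx | hx) <;> have := blk_mem hx <;> omega)
  rw [List.map_append, List.map_append, List.map_append, blk_fst, blk_fst, blk_fst, blk_fst] at vA
  rw [List.map_append, List.map_append, blk_fst, blk_fst, blk_fst] at vB
  obtain ⟨a1, a2, T, a3, a4⟩ := CS_facts h vA
  obtain ⟨b1, b2, U, b3, b4⟩ := CS_facts h vB
  set s0 := List.replicate K (1 : Fin 5) ++ List.replicate K 3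
  set sA := List.replicate K (0 : Fin 5) ++ (List.replicate (w - K) 4 ++ s0) with hA
  set sB := List.replicate (w - K) (2 : Fin 5) ++ s0 with hB
  have e1 : CS A sA 1 = CS A sB 1 := by
    rw [hA, hB, CS_app A (List.replicate K 0) _ _ (by simp),
      CS_app A (List.replicate (w - K) 4) _ _ (by simp),
      CS_app A (List.replicate (w - K) 2) _ _ (by simp)]
  have e3 : CS A sA 3 = CS A sB 3 := by
    rw [hA, hB, CS_app A (List.replicate K 0) _ _ (by simp),
      CS_app A (List.replicate (w - K) 4) _ _ (by simp),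
      CS_app A (List.replicate (w - K) 2) _ _ (by simp)]
  have c0 : (CS A sA 0).card = K := by rw [a1]; simp [sA, s0, List.count_replicate]
  have c4 : (CS A sA 4).card = w - K := by rw [a1]; simp [sA, s0, List.count_replicate]
  have c1 : (CS A sB 1).card = K := by rw [b1]; simp [sB, s0, List.count_replicate]
  have c3 : (CS A sB 3).card = K := by rw [b1]; simp [sB, s0, List.count_replicate]
  have c2 : (CS A sB 2).card = w - K := by rw [b1]; simp [sB, s0, List.count_replicate]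
  have d04 := a2 0 4 (by decide) (by decide)
  have d01 := a2 0 1 (by decide) (by decide)
  have d43 := a2 4 3 (by decide) (by decide)
  have d21 := b2 2 1 (by decide) (by decide)
  have d23 := b2 2 3 (by decide) (by decide)
  have x1 : (CS A sA 0 ∪ CS A sA 4 ∪ (CS A sA 1 ∩ CS A sA 3)).card ≤ T.card :=
    card_le_card (union_subset (union_subset (a4 _) (a4 _)) (inter_subset_left.trans (a4 _)))
  have x2 : (CS A sB 2 ∪ (CS A sB 1 ∪ CS A sB 3)).card ≤ U.card :=
    card_le_card (union_subset (b4 _) (union_subset (b4 _) (b4 _)))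
  rw [card_union_of_disjoint (disjoint_union_left.2 ⟨d01.mono_right inter_subset_left,
    d43.mono_right inter_subset_right⟩), card_union_of_disjoint d04, e1, e3] at x1
  rw [card_union_of_disjoint (disjoint_union_right.2 ⟨d21, d23⟩)] at x2
  have := card_union_add_card_inter (CS A sB 1) (CS A sB 3)
  omega

theorem value_eq (w : ℕ) : value w house = w + (w + 2) / 4 :=
  le_antisymm (Nat.sInf_le (upper w))
    (le_csInf ⟨_, upper w⟩ fun _ ⟨_, h⟩ => lower h)

theorem result :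
    Tendsto (fun w : ℕ => (value w house : ℝ) / w) atTop (𝓝 (5 / 4)) := by
  have t : Tendsto (fun w : ℕ => (1 : ℝ) / w) atTop (𝓝 0) := tendsto_one_div_atTop_nhds_zero_nat
  have t1 : Tendsto (fun w : ℕ => 5 / 4 - (1 : ℝ) / w) atTop (𝓝 (5 / 4)) := by
    simpa using t.const_sub (5 / 4)
  have t2 : Tendsto (fun w : ℕ => 5 / 4 + (1 : ℝ) / w) atTop (𝓝 (5 / 4)) := by
    simpa using t.const_add (5 / 4)
  refine tendsto_of_tendsto_of_tendsto_of_le_of_le' t1 t2 ?_ ?_
  · filter_upwards [eventually_gt_atTop 0] with w hw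
    have hw' : (0 : ℝ) < w := by exact_mod_cast hw
    have : 5 * w ≤ 4 * value w house + 4 := by rw [value_eq]; omega
    have : (5 : ℝ) * w ≤ 4 * value w house + 4 := by exact_mod_cast this
    rw [le_div_iff₀ hw', sub_mul, one_div, inv_mul_cancel₀ hw'.ne']
    linarith
  · filter_upwards [eventually_gt_atTop 0] with w hw
    have hw' : (0 : ℝ) < w := by exact_mod_cast hw
    have : 4 * value w house ≤ 5 * w + 4 := by rw [value_eq]; omega
    have : (4 : ℝ) * value w house ≤ 5 * w + 4 := by exact_mod_cast this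
    rw [div_le_iff₀ hw', add_mul, one_div, inv_mul_cancel₀ hw'.ne']
    linarith

end Pool.Agent.Results.MP_f00a0c_co.House
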